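import Mathlib
import Pool.Agent.H39.FeasHard
import Pool.Agent.H39.FeasVer
import Pool.Agent.H39.NP.Member

set_option autoImplicit false

/-!
# FEAS is NP-complete

Membership: a realising word is a witness of polynomial length, checked in polynomial time.
Hardness: reduction from 3-satisfiability through an exact packing problem with sizes of polynomial
value. The first letter has distances `c_j + 1` and cuts the cycle into free intervals of lengths `c_j`;
an item of size `x` is a letter with `x` occurrences and distances `D - x + 1, 1, ..., 1`, which
forces a contiguous block.
-/

namespace Pool.Agent.Results.MP_0403ae_lc.FeasNPComplete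

open Pool.Agent.H39.Feas Pool.Agent.H80.Poly Pool.Agent.H72.NP

/-- FEAS, on instances encoded in binary, is NP-complete. -/
theorem result : NPComplete (BEnc.enc (α := List (List ℕ))) FEAS :=
  ⟨Pool.Agent.H39.Front.inNP_of_polyTime verB polyTime_verB _ feas_iff_verB, npHard_feas⟩

end Pool.Agent.Results.MP_0403ae_lc.FeasNPComplete
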